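import Pool.Agent.Helper20K9.UL.Stm2

/-!
UL part 2: the leaf GENa, the proof of GEN with a general exponent.
-/

set_option autoImplicit false

namespace Pool.Agent.Helper80K9.UL

open Helper20K9.UL
open MeasureTheory Filter Topology Metric Set
open scoped ENNReal NNReal

namespace GenL

/-- One compact part of the domain and one `ε`. -/
theorem one {a : ℝ} (ha : 0 < a) (hBC : Sa_BC a) (hSH : Sa_SH a) (hDET : S_DET) {Ω : Type} [MeasurableSpace Ω]
    (μ : Measure Ω) [IsProbabilityMeasure μ] (K : Ω → Set ℂ)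
    (hK : ∀ z r, MeasurableSet (Hit K z r)) {D : Set ℂ} (hD : IsOpen D)
    (hMP : ∀ A : Set ℂ, IsCompact A → A ⊆ D →
      ∃ C r1 s1 : ℝ, 0 < C ∧ 0 < r1 ∧ 0 < s1 ∧ MPa a μ K A C r1 s1)
    {𝒮 : Set (Set ℂ)} {β : ℝ} (hβ : 2 * a < β) (hEnt : Ent 𝒮 β) {A : Set ℂ} (hA : IsCompact A)
    (hAD : A ⊆ D) {ε : ℝ} (hε : 0 < ε) :
    ∀ᵐ ω ∂μ, ∀ S ∈ 𝒮, dimH (K ω ∩ S ∩ A) ≤ ENNReal.ofReal (β - a + ε) := by
  classical
  obtain ⟨d, hd, hdD⟩ := hA.exists_cthickening_subset_open hD hAD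
  have hA' : IsCompact (cthickening d A) := hA.cthickening
  obtain ⟨C, r1, s1, hC, hr1, hs1, hmp⟩ := hMP _ hA' hdD
  obtain ⟨M0, hM0⟩ := Metric.isBounded_iff.1 hA'.isBounded
  obtain ⟨k, Q, hQ, hT⟩ := hEnt
  choose 𝒯 h𝒯c h𝒯b h𝒯S using hT
  obtain ⟨C2, hC2, hsh⟩ := hSH ha Q β (max M0 1) hQ hβ (by positivity)
  let 𝒯' : ℕ → Finset (Finset ℂ) := fun n =>
    (𝒯 n).image (fun T => T.filter (fun x => x ∈ cthickening d A))
  have hcard : ∀ n, ((𝒯' n).card : ℝ) ≤ max Q C2 * 2 ^ (k * n) := by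
    intro n
    have h1 : ((𝒯' n).card : ℝ) ≤ (𝒯 n).card := by exact_mod_cast Finset.card_image_le
    refine h1.trans ((h𝒯c n).trans ?_)
    exact mul_le_mul_of_nonneg_right (le_max_left _ _) (by positivity)
  have hprop : ∀ n, ∀ T ∈ 𝒯' n, (∀ x ∈ T, x ∈ cthickening d A) ∧
      (T.card : ℝ) ≤ max Q C2 * (2 : ℝ) ^ (β * n) ∧
      ∀ y ∈ T, ∑ x ∈ T, (max (dist x y) ((2 : ℝ) ^ (-(n : ℝ)))) ^ (-(2 * a)) ≤
        max Q C2 * (2 : ℝ) ^ (β * n) := by
    intro n T' hT'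
    obtain ⟨T, hTn, rfl⟩ := Finset.mem_image.1 hT'
    have hin : ∀ x ∈ T.filter (fun x => x ∈ cthickening d A), x ∈ cthickening d A :=
      fun x hx => (Finset.mem_filter.1 hx).2
    obtain ⟨h1, h2⟩ := hsh (T.filter (fun x => x ∈ cthickening d A)) n
      (fun x hx y hy => (hM0 (hin x hx) (hin y hy)).trans (le_max_left _ _))
      (by
        intro x ρ hρ
        refine le_trans ?_ (h𝒯b n T hTn x ρ hρ)
        have : (((T.filter (fun x => x ∈ cthickening d A) : Finset ℂ) : Set ℂ) ∩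
            closedBall x ρ).ncard ≤ ((T : Set ℂ) ∩ closedBall x ρ).ncard := by
          apply Set.ncard_le_ncard
          · apply Set.inter_subset_inter_left
            intro y hy
            exact Finset.mem_coe.2 (Finset.mem_filter.1 (Finset.mem_coe.1 hy)).1
          · exact (Finset.finite_toSet T).subset Set.inter_subset_left
        exact_mod_cast this)
    refine ⟨hin, h1.trans ?_, fun y hy => (h2 y hy).trans ?_⟩
    · exact mul_le_mul_of_nonneg_right (le_max_right _ _) (by positivity)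
    · exact mul_le_mul_of_nonneg_right (le_max_right _ _) (by positivity)
  have hbc := hBC ha μ K hK (cthickening d A) C r1 s1 hA'.isBounded hC hr1 hs1 hmp k (max Q C2) β ε
    𝒯' (lt_of_lt_of_le hQ (le_max_left _ _)) hε (by linarith) hcard hprop
  have hev : ∀ᶠ n : ℕ in atTop, (2 : ℝ) ^ (-(n : ℝ)) ≤ d := by
    have h9 : Tendsto (fun n : ℕ => (1/2 : ℝ) ^ n) atTop (𝓝 0) :=
      tendsto_pow_atTop_nhds_zero_of_lt_one (by norm_num) (by norm_num)
    filter_upwards [h9.eventually_lt_const hd] with n hn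
    have : (2 : ℝ) ^ (-(n : ℝ)) = (1/2) ^ n := by
      rw [Real.rpow_neg (by norm_num), Real.rpow_natCast, one_div, inv_pow]
    rw [this]
    exact hn.le
  filter_upwards [hbc] with ω hω
  intro S hS
  apply hDET _ _ 1 (by linarith) one_pos
  filter_upwards [hω, hev] with n hn1 hn2
  obtain ⟨T, hTn, hTS⟩ := h𝒯S n S hS
  refine ⟨(T.filter (fun x => x ∈ cthickening d A)).filter
    (fun x => ω ∈ Hit K x ((2 : ℝ) ^ (-(n : ℝ)))), ?_, ?_⟩
  · have h1 := hn1 _ (Finset.mem_image_of_mem (fun T : Finset ℂ => T.filter (fun x => x ∈ cthickening d A)) hTn)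
    rw [one_mul]
    refine le_trans (le_of_eq ?_) h1
    unfold cnt
    congr
  · rintro z ⟨⟨hzK, hzS⟩, hzA⟩
    obtain ⟨x, hxT, hzx⟩ := Set.mem_iUnion₂.1 (hTS hzS)
    refine Set.mem_iUnion₂.2 ⟨x, ?_, hzx⟩
    refine Finset.mem_filter.2 ⟨Finset.mem_filter.2 ⟨hxT, ?_⟩, ?_⟩
    · apply mem_cthickening_of_dist_le x z d A hzA
      rw [dist_comm]
      exact (mem_closedBall.1 hzx).trans hn2
    · exact ⟨z, hzK, hzx⟩

end GenL

theorem gena (a : ℝ) : Sa_BC a → Sa_SH a → S_DET → Sa_GEN a := by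
  intro hBC hSH hDET ha Ω _ μ _ K hK D hD hDb hMP 𝒮 β hβ hEnt
  obtain ⟨F, hFc, hFD, hFU, -⟩ := hD.exists_iUnion_isClosed
  have hFcomp : ∀ j, IsCompact (F j) := fun j =>
    Metric.isCompact_of_isClosed_isBounded (hFc j) (hDb.subset (hFD j))
  have h1 : ∀ᵐ ω ∂μ, ∀ j : ℕ, ∀ i : ℕ, ∀ S ∈ 𝒮,
      dimH (K ω ∩ S ∩ F j) ≤ ENNReal.ofReal (β - a + 1 / ((i : ℝ) + 1)) := by
    rw [ae_all_iff]
    intro j
    rw [ae_all_iff]
    intro i
    exact GenL.one ha hBC hSH hDET μ K hK hD hMP hβ hEnt (hFcomp j) (hFD j) (by positivity)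
  filter_upwards [h1] with ω hω
  intro S hS
  rw [← hFU, Set.inter_iUnion, dimH_iUnion]
  apply iSup_le
  intro j
  have h2 : Tendsto (fun i : ℕ => ENNReal.ofReal (β - a + 1 / ((i : ℝ) + 1))) atTop
      (𝓝 (ENNReal.ofReal (β - a + 0))) :=
    ENNReal.tendsto_ofReal (tendsto_one_div_add_atTop_nhds_zero_nat.const_add _)
  rw [add_zero] at h2
  exact ge_of_tendsto' h2 (fun i => hω j i S hS)

end Pool.Agent.Helper80K9.UL
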